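import Pool.Agent.Helper48.WeissJ.Goals
import Mathlib.Analysis.Subadditive

/-! MP_6b0aee_an (Weiss), joint version: packet FREQ. -/

set_option autoImplicit false

open Set Filter Topology

namespace Pool.Agent.Helper94.WeissJ

open Pool.Agent.Helper48.WeissJ

universe u

section

variable {X : Type u} {Λ : Type} [TopologicalSpace X] [Fintype Λ] {F : X → X} {q : Λ → X → ℝ}

theorem cap_univ_add (hq : IsCoding q) (g h : ℕ) :
    cap F q (g + h) univ ≤ cap F q g univ * cap F q h univ :=
  hq.cap_add_le (fun _ _ => mem_univ _)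

theorem cap_univ_mul (hq : IsCoding q) (g j k : ℕ) :
    cap F q (k * g + j) univ ≤ cap F q g univ ^ k * cap F q j univ := by
  induction k with
  | zero => simp
  | succ k ih =>
    have h1 : (k + 1) * g + j = g + (k * g + j) := by ring
    rw [h1, pow_succ]
    calc cap F q (g + (k * g + j)) univ ≤ cap F q g univ * cap F q (k * g + j) univ :=
          cap_univ_add hq _ _
      _ ≤ cap F q g univ * (cap F q g univ ^ k * cap F q j univ) :=
          mul_le_mul_of_nonneg_left ih (hq.cap_nonneg _ _)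
      _ = cap F q g univ ^ k * cap F q g univ * cap F q j univ := by ring

theorem freq1 [Nonempty X] (hq : IsCoding q) (p : ℝ)
    (hp : ∃ᶠ g : ℕ in atTop, Real.exp (p * g) ≤ cap F q g univ) : PB F q p := by
  intro n
  rcases Nat.eq_zero_or_pos n with rfl | hn
  · rw [cap_zero_univ]
    simp
  by_contra hcon
  push Not at hcon
  set a : ℝ := max 1 (Fintype.card Λ : ℝ) with ha
  have ha1 : 1 ≤ a := le_max_left _ _
  set c : ℝ := cap F q n univ with hc
  have hc0 : 0 ≤ c := hq.cap_nonneg _ _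
  set e : ℝ := Real.exp (p * n) with he
  have he0 : 0 < e := Real.exp_pos _
  set ρ : ℝ := c / e with hρ
  have hρ0 : 0 ≤ ρ := div_nonneg hc0 he0.le
  have hρ1 : ρ < 1 := (div_lt_one he0).2 hcon
  set B : ℝ := Real.exp (-(|p| * n)) with hB
  have hB0 : 0 < B := Real.exp_pos _
  have ht : Tendsto (fun g : ℕ => ρ ^ (g / n) * a ^ n) atTop (𝓝 (0 * a ^ n)) := by
    apply Tendsto.mul_const
    exact (tendsto_pow_atTop_nhds_zero_of_lt_one hρ0 hρ1).comp
      (Nat.tendsto_div_const_atTop hn.ne')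
  rw [zero_mul] at ht
  obtain ⟨g, hg1, hg2⟩ := (hp.and_eventually (ht.eventually (gt_mem_nhds hB0))).exists
  set k := g / n with hk
  set j := g % n with hj
  have hgkj : k * n + j = g := by
    rw [mul_comm]
    exact Nat.div_add_mod g n
  have hjn : j < n := Nat.mod_lt _ hn
  have h1 : cap F q g univ ≤ c ^ k * cap F q j univ := by
    conv_lhs => rw [← hgkj]
    exact cap_univ_mul hq n j k
  have h2 : cap F q j univ ≤ a ^ n := by
    calc cap F q j univ ≤ (Fintype.card Λ : ℝ) ^ j := hq.cap_le_pow _ _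
      _ ≤ a ^ j := by
        apply pow_le_pow_left₀ (Nat.cast_nonneg _) (le_max_right _ _)
      _ ≤ a ^ n := pow_le_pow_right₀ ha1 hjn.le
  have h3 : Real.exp (p * g) = e ^ k * Real.exp (p * j) := by
    rw [he, ← Real.exp_nat_mul, ← Real.exp_add, ← hgkj]
    congr 1
    push_cast
    ring
  have h4 : B ≤ Real.exp (p * j) := by
    apply Real.exp_le_exp.2
    have h5 : -|p| ≤ p := neg_abs_le p
    have h6 : (j : ℝ) ≤ n := by exact_mod_cast hjn.le
    have h7 : (0 : ℝ) ≤ j := Nat.cast_nonneg j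
    have h8 : 0 ≤ |p| := abs_nonneg p
    nlinarith
  have h5 : e ^ k * B ≤ c ^ k * a ^ n := by
    calc e ^ k * B ≤ e ^ k * Real.exp (p * j) := by gcongr
      _ = Real.exp (p * g) := h3.symm
      _ ≤ cap F q g univ := hg1
      _ ≤ c ^ k * cap F q j univ := h1
      _ ≤ c ^ k * a ^ n := by gcongr
  have h6 : B ≤ ρ ^ k * a ^ n := by
    rw [hρ, div_pow, div_mul_eq_mul_div, le_div_iff₀ (pow_pos he0 k)]
    linarith [h5, mul_comm (e ^ k) B]
  exact absurd hg2 (not_lt.2 h6)

theorem freq2 [Nonempty X] (hq : IsCoding q) (p : ℝ) (hp : PB F q p) :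
    ∃ P ≥ p, PB F q P ∧ ∀ ε > 0, ∃ g₀ : ℕ, ∀ g ≥ g₀,
      cap F q g univ ≤ Real.exp ((P + ε) * g) := by
  have hpos : ∀ g, 0 < cap F q g univ := fun g => (Real.exp_pos _).trans_le (hp g)
  have hsub : Subadditive (fun g : ℕ => Real.log (cap F q g univ)) := by
    intro m n
    rw [← Real.log_mul (hpos m).ne' (hpos n).ne']
    exact Real.log_le_log (hpos _) (cap_univ_add hq m n)
  have hlow : ∀ n : ℕ, n ≠ 0 → p ≤ Real.log (cap F q n univ) / n := by
    intro n hn
    have hn' : (0 : ℝ) < n := by exact_mod_cast Nat.pos_of_ne_zero hn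
    rw [le_div_iff₀ hn']
    have := Real.log_le_log (Real.exp_pos _) (hp n)
    rwa [Real.log_exp] at this
  have hbdd : BddBelow (range fun n : ℕ => Real.log (cap F q n univ) / n) := by
    refine ⟨min p 0, ?_⟩
    rintro _ ⟨n, rfl⟩
    by_cases hn : n = 0
    · subst hn
      simp
    · exact (min_le_left _ _).trans (hlow n hn)
  have hlim := hsub.tendsto_lim hbdd
  refine ⟨hsub.lim, ?_, ?_, ?_⟩
  · refine ge_of_tendsto hlim ?_
    filter_upwards [eventually_ge_atTop 1] with n hn
    exact hlow n (by omega)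
  · intro g
    by_cases hg : g = 0
    · subst hg
      rw [cap_zero_univ]
      simp
    · have h1 := hsub.lim_le_div hbdd hg
      have hg' : (0 : ℝ) < g := by exact_mod_cast Nat.pos_of_ne_zero hg
      rw [le_div_iff₀ hg'] at h1
      exact (Real.le_log_iff_exp_le (hpos g)).1 h1
  · intro ε hε
    have h1 := hlim.eventually (gt_mem_nhds (show hsub.lim < hsub.lim + ε by linarith))
    obtain ⟨g₀, hg₀⟩ := (h1.and (eventually_ge_atTop 1)).exists_forall_of_atTop
    refine ⟨g₀, fun g hg => ?_⟩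
    obtain ⟨h2, h3⟩ := hg₀ g hg
    have hg' : (0 : ℝ) < g := by exact_mod_cast h3
    rw [div_lt_iff₀ hg'] at h2
    exact (Real.log_le_iff_le_exp (hpos g)).1 h2.le

end

/-- FREQ. -/
theorem freq : FREQ.{u} := by
  intro X Λ _ _ _ F q hq
  exact ⟨fun p hp => freq1 hq p hp, fun p hp => freq2 hq p hp⟩

end Pool.Agent.Helper94.WeissJ
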