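import Pool.Agent.Helper48.WeissJ.Goals

/-! MP_6b0aee_an (Weiss), joint version: packet NBB. -/

set_option autoImplicit false

open Set Filter Topology

namespace Pool.Agent.Helper94.WeissJ

open Pool.Agent.Helper48.WeissJ

universe u

/-- The index of a letter of the `k`-th sub-word. -/
theorem sub_lt {T L m K k s : ℕ} (hk : k < K + m) (hs : s < T + L) :
    k * T + s < K * T + (m * T + L) := by
  have h := Nat.mul_le_mul_right T (Nat.succ_le_of_lt hk)
  rw [Nat.succ_mul, Nat.add_mul] at h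
  omega

/-- The `k`-th sub-word. -/
def sub {Λ' : Type} {T L m K : ℕ} (w : Fin (K * T + (m * T + L)) → Λ') (k : Fin (K + m)) :
    Fin (T + L) → Λ' :=
  fun s => w ⟨k * T + s, sub_lt k.2 s.2⟩

theorem sub_pos {X : Type u} {Λ' : Type} {F : X → X} {q' : Λ' → X → ℝ}
    (hq : ∀ a x, 0 ≤ q' a x) {T L m K : ℕ} {w : Fin (K * T + (m * T + L)) → Λ'} {x : X}
    (h : 0 < qw F q' (K * T + (m * T + L)) w x) (k : Fin (K + m)) :
    0 < qw F q' (T + L) (sub w k) (F^[(k : ℕ) * T] x) := by
  apply Finset.prod_pos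
  intro s _
  refine lt_of_le_of_ne (hq _ _) (fun h1 => ?_)
  apply h.ne'
  apply Finset.prod_eq_zero (Finset.mem_univ (⟨k * T + s, sub_lt k.2 s.2⟩ : Fin _))
  show q' (w ⟨k * T + s, sub_lt k.2 s.2⟩) (F^[(k : ℕ) * T + (s : ℕ)] x) = 0
  have h2 : F^[(k : ℕ) * T + (s : ℕ)] x = F^[(s : ℕ)] (F^[(k : ℕ) * T] x) := by
    rw [add_comm ((k : ℕ) * T), Function.iterate_add_apply]
  rw [h2]
  exact h1.symm

theorem key {X : Type u} {F : X → X} {R Sh Q : Set (X × X)} {T m K : ℕ} (hT : 0 < T)
    (hQ : R ∩ Chn F T m Sh ⊆ Q) {x y : X}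
    (h : ∀ k : Fin (K + m), (F^[(k : ℕ) * T] x, F^[(k : ℕ) * T] y) ∈ Sh ∧
      ∀ s < T, (F^[s] (F^[(k : ℕ) * T] x), F^[s] (F^[(k : ℕ) * T] y)) ∈ R) :
    ∀ s < K * T, (F^[s] x, F^[s] y) ∈ Q := by
  intro s hs
  set j := s / T with hj
  set i := s % T with hi
  have hij : i + j * T = s := by
    rw [mul_comm]
    exact Nat.mod_add_div s T
  have hiT : i < T := Nat.mod_lt _ hT
  have hjK : j < K := by
    rw [hj]
    exact Nat.div_lt_of_lt_mul (by rw [mul_comm]; exact hs)
  clear_value j i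
  apply hQ
  refine ⟨?_, ?_⟩
  · have h1 := (h ⟨j, by omega⟩).2 i hiT
    dsimp only at h1
    rw [← Function.iterate_add_apply, ← Function.iterate_add_apply, hij] at h1
    exact h1
  · by_cases hi0 : i = 0
    · refine ⟨0, hT, fun k hk => ?_⟩
      have h1 := (h ⟨j + k, by omega⟩).1
      dsimp only at h1 ⊢
      have h2 : 0 + k * T + s = (j + k) * T := by
        rw [← hij, hi0]
        ring
      rw [← Function.iterate_add_apply, ← Function.iterate_add_apply, h2]
      exact h1
    · refine ⟨T - i, by omega, fun k hk => ?_⟩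
      have h1 := (h ⟨j + 1 + k, by omega⟩).1
      dsimp only at h1 ⊢
      have h2 : T - i + k * T + s = (j + 1 + k) * T := by
        have h3 : (j + 1 + k) * T = j * T + T + k * T := by ring
        omega
      rw [← Function.iterate_add_apply, ← Function.iterate_add_apply, h2]
      exact h1

/-- NBB. -/
theorem nbb : NBB.{u} := by
  intro X Λ' B₀ _ F q' R Sh Q T L m K γ c₀ ν₀ hT hK hq hc hν hQ hcard
  classical
  let e := Fintype.equivFin (Fin (K + m) → B₀)
  refine ⟨K * T, m * T + L, Fintype.card (Fin (K + m) → B₀),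
    fun w => e (fun k => ν₀ (sub w k)), fun x => e (fun k => c₀ (F^[(k : ℕ) * T] x)),
    Nat.mul_pos hK hT, ?_, ?_, ?_⟩
  · rw [Fintype.card_fun, Fintype.card_fin]
    push_cast
    exact hcard
  · intro x y hxy
    have h1 := e.injective hxy
    apply key hT hQ
    intro k
    exact hc _ _ (congrFun h1 k)
  · intro w w' x y hw hw' hww'
    have h1 := e.injective hww'
    apply key hT hQ
    intro k
    exact hν _ _ _ _ (sub_pos hq hw k) (sub_pos hq hw' k) (congrFun h1 k)

end Pool.Agent.Helper94.WeissJ
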