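import Pool.Agent.Helper48.WeissJ.Goals

/-! MP_6b0aee_an (Weiss), joint version: packet STAR. -/

set_option autoImplicit false

open Set Filter Topology

namespace Pool.Agent.Helper94.WeissJ

open Pool.Agent.Helper48.WeissJ

universe u

/-- The index set of the types of steps. -/
abbrev Ix (H T m : ℕ) : Type :=
  Unit ⊕ (Fin H ⊕ ((Fin H × Fin T) ⊕ (Fin H × Fin T × Fin ((m + 1) * T))))

/-- The length of a step. -/
def len (H T m L : ℕ) : Ix H T m → ℕ
  | Sum.inl _ => H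
  | Sum.inr (Sum.inl s) => s + L
  | Sum.inr (Sum.inr (Sum.inl p)) => p.1 + (p.2 + m * T)
  | Sum.inr (Sum.inr (Sum.inr p)) => p.1 + (p.2.2 + L)

/-- The weight of a step; `k₂` is the weight for the steps with the low set, `k₁` the other. -/
noncomputable def wgt (H T m : ℕ) (k₁ k₂ : ℝ) : Ix H T m → ℝ
  | Sum.inl _ => 1 / 4
  | Sum.inr (Sum.inl _) => k₂
  | Sum.inr (Sum.inr (Sum.inl _)) => k₁
  | Sum.inr (Sum.inr (Sum.inr _)) => k₂

/-- The set of a step. -/
def cell {X : Type u} (F : X → X) (B : Set X) (D Sh : Set (X × X)) (H T m : ℕ) (x : X) :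
    Ix H T m → Set X
  | Sum.inl _ => {y | ∀ i < H, (F^[i] x, F^[i] y) ∈ D ∧ F^[i] y ∉ B}
  | Sum.inr (Sum.inl s) =>
      {y | (∀ i < (s : ℕ), (F^[i] x, F^[i] y) ∈ D ∧ F^[i] y ∉ B) ∧ F^[(s : ℕ)] y ∈ B}
  | Sum.inr (Sum.inr (Sum.inl p)) =>
      {y | (∀ i < (p.1 : ℕ), (F^[i] x, F^[i] y) ∈ D ∧ F^[i] y ∉ B) ∧
        (∀ i < (p.2 : ℕ) + m * T, F^[(p.1 : ℕ) + i] y ∉ B) ∧
        ∀ k < m, (F^[(p.1 : ℕ) + ((p.2 : ℕ) + k * T)] x,
          F^[(p.1 : ℕ) + ((p.2 : ℕ) + k * T)] y) ∈ Sh}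
  | Sum.inr (Sum.inr (Sum.inr p)) =>
      {y | (∀ i < (p.1 : ℕ), (F^[i] x, F^[i] y) ∈ D ∧ F^[i] y ∉ B) ∧
        (∀ i < (p.2.2 : ℕ), F^[(p.1 : ℕ) + i] y ∉ B) ∧
        F^[(p.1 : ℕ) + (p.2.2 : ℕ)] y ∈ B ∧
        ∀ k : ℕ, (p.2.1 : ℕ) + (k + 1) * T ≤ (p.2.2 : ℕ) →
          (F^[(p.1 : ℕ) + ((p.2.1 : ℕ) + k * T)] x,
            F^[(p.1 : ℕ) + ((p.2.1 : ℕ) + k * T)] y) ∈ Sh}

theorem cover {X : Type u} (F : X → X) (B : Set X) (D Sh E : Set (X × X)) (H T m L : ℕ)
    (_hT : 0 < T)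
    (hE : ∀ x y, (x, y) ∈ E → (x, y) ∈ D ∨ (x, y) ∈ Chn F T m Sh) (x : X) :
    Pool.Agent.Helper48.WeissJ.star F E (H + (m + 1) * T + L) x ⊆
      ⋃ i, cell F B D Sh H T m x i := by
  classical
  intro y hy
  rw [mem_iUnion]
  by_cases h0 : ∃ s, s < H ∧ (F^[s] y ∈ B ∨ (F^[s] x, F^[s] y) ∉ D)
  · -- the first time
    set s := Nat.find h0 with hs
    have hs1 : s < H := (Nat.find_spec h0).1
    have hs2 : F^[s] y ∈ B ∨ (F^[s] x, F^[s] y) ∉ D := (Nat.find_spec h0).2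
    have hmin : ∀ i < s, (F^[i] x, F^[i] y) ∈ D ∧ F^[i] y ∉ B := by
      intro i hi
      have := Nat.find_min h0 hi
      push Not at this
      obtain ⟨h1, h2⟩ := this (hi.trans hs1)
      exact ⟨h2, h1⟩
    clear_value s
    by_cases hB : F^[s] y ∈ B
    · exact ⟨Sum.inr (Sum.inl ⟨s, hs1⟩), hmin, hB⟩
    · have hD : (F^[s] x, F^[s] y) ∉ D := hs2.resolve_left hB
      have hEs : (F^[s] x, F^[s] y) ∈ E := hy s (by omega)
      obtain ⟨u, hu, hk⟩ := (hE _ _ hEs).resolve_left hD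
      have hk' : ∀ k < m, (F^[s + (u + k * T)] x, F^[s + (u + k * T)] y) ∈ Sh := by
        intro k hkm
        have := hk k hkm
        dsimp only at this
        rw [← Function.iterate_add_apply, ← Function.iterate_add_apply,
          add_comm (u + k * T) s] at this
        exact this
      by_cases h1 : ∃ τ, τ < u + m * T ∧ F^[s + τ] y ∈ B
      · set τ := Nat.find h1 with hτ
        have hτ1 : τ < u + m * T := (Nat.find_spec h1).1
        have hτ2 : F^[s + τ] y ∈ B := (Nat.find_spec h1).2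
        have hτm : ∀ i < τ, F^[s + i] y ∉ B := by
          intro i hi hcon
          exact Nat.find_min h1 hi ⟨hi.trans hτ1, hcon⟩
        clear_value τ
        have hτ3 : τ < (m + 1) * T := by
          rw [add_mul, one_mul]
          omega
        refine ⟨Sum.inr (Sum.inr (Sum.inr (⟨s, hs1⟩, ⟨u, hu⟩, ⟨τ, hτ3⟩))), hmin, hτm, hτ2, ?_⟩
        intro k hkτ
        dsimp only at hkτ ⊢
        apply hk'
        have h5 : (k + 1) * T < m * T := by omega
        have h6 : k + 1 < m := lt_of_mul_lt_mul_right h5 (Nat.zero_le T)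
        omega
      · push Not at h1
        exact ⟨Sum.inr (Sum.inr (Sum.inl (⟨s, hs1⟩, ⟨u, hu⟩))), hmin, h1, hk'⟩
  · push Not at h0
    exact ⟨Sum.inl (), fun i hi => ⟨(h0 i hi).2, (h0 i hi).1⟩⟩

theorem star_ok : REN.{u} → PC2.{u} → STAR.{u} := by
  intro hREN hPC2 X Λ _ _ F q q' B D Sh C β M b L T hS E θ m H hm hH hβθ hE h1 h2 h3 h4
  classical
  have hθ : 0 ≤ θ := hS.hβ.trans hβθ
  have : Nonempty Λ := Fintype.card_pos_iff.1 hS.hΛ
  set a : ℝ := (Fintype.card Λ : ℝ) with ha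
  have ha1 : 1 ≤ a := by
    rw [ha]
    exact_mod_cast hS.hΛ
  have ha0 : 0 ≤ a := zero_le_one.trans ha1
  have hb := hS.hb
  have hC := hS.hC
  have hM := hS.hM
  have hT := hS.hT
  have hL := hS.hL
  set k₁ : ℝ := C * a ^ T * (M * Real.exp (-(θ * T))) ^ m with hk₁
  set k₂ : ℝ := C * a ^ (2 * T) * ((2 * a) ^ L * b) with hk₂
  have hk₁0 : 0 ≤ k₁ := by positivity
  have hk₂0 : 0 ≤ k₂ := by positivity
  have haT : 1 ≤ a ^ (2 * T) := one_le_pow₀ ha1
  -- exponent comparison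
  have hexp : ∀ n : ℕ, Real.exp (β * n) ≤ Real.exp (θ * n) := by
    intro n
    apply Real.exp_le_exp.2
    exact mul_le_mul_of_nonneg_right hβθ (Nat.cast_nonneg n)
  refine hREN X (Λ × Bool) F q' hS.hq' E θ hθ (H + (m + 1) * T + L) (Ix H T m)
    (len H T m L) (wgt H T m k₁ k₂) ?_ ?_ ?_ ?_
  · -- lengths
    rintro (i | s | ⟨s, u⟩ | ⟨s, u, τ⟩)
    · constructor
      · exact hH
      · show H ≤ _
        omega
    · have := s.2
      constructor
      · show 0 < (s : ℕ) + L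
        omega
      · show (s : ℕ) + L ≤ _
        omega
    · have h5 := s.2
      have h6 := u.2
      have h7 : 0 < m * T := Nat.mul_pos hm hT
      have h8 : (m + 1) * T = m * T + T := by ring
      constructor
      · show 0 < (s : ℕ) + ((u : ℕ) + m * T)
        omega
      · show (s : ℕ) + ((u : ℕ) + m * T) ≤ _
        omega
    · have h5 := s.2
      have h6 := τ.2
      constructor
      · show 0 < (s : ℕ) + ((τ : ℕ) + L)
        omega
      · show (s : ℕ) + ((τ : ℕ) + L) ≤ _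
        omega
  · rintro (i | s | ⟨s, u⟩ | ⟨s, u, τ⟩)
    · show (0 : ℝ) ≤ 1 / 4
      norm_num
    · exact hk₂0
    · exact hk₁0
    · exact hk₂0
  · -- the sum
    rw [Fintype.sum_sum_type, Fintype.sum_sum_type, Fintype.sum_sum_type]
    have e1 : ∑ i : Unit, wgt H T m k₁ k₂ (Sum.inl i) = 1 / 4 := by
      simp [wgt]
    have e2 : ∑ i : Fin H, wgt H T m k₁ k₂ (Sum.inr (Sum.inl i)) = H * k₂ := by
      simp [wgt]
    have e3 : ∑ i : Fin H × Fin T, wgt H T m k₁ k₂ (Sum.inr (Sum.inr (Sum.inl i))) =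
        H * T * k₁ := by
      simp [wgt]
    have e4 : ∑ i : Fin H × Fin T × Fin ((m + 1) * T),
        wgt H T m k₁ k₂ (Sum.inr (Sum.inr (Sum.inr i))) = H * (T * ((m + 1) * T)) * k₂ := by
      simp [wgt]
    rw [e1, e2, e3, e4]
    have h5 : (H : ℝ) * T * k₁ ≤ 1 / 4 := by
      rw [hk₁]
      calc _ = (H : ℝ) * T * C * a ^ T * (M * Real.exp (-(θ * T))) ^ m := by ring
        _ ≤ _ := h2
    have h6 : (H : ℝ) * (T * ((m + 1) * T) + 1) * k₂ ≤ 1 / 4 := by
      rw [hk₂]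
      calc _ = (H : ℝ) * (T * ((m + 1) * T) + 1) * C * a ^ (2 * T) * (2 * a) ^ L * b := by ring
        _ ≤ _ := h4
    have h7 : (H : ℝ) * (T * ((m + 1) * T) + 1) * k₂ =
        H * k₂ + H * (T * ((m + 1) * T)) * k₂ := by ring
    linarith
  · -- the covering
    intro x
    refine ⟨cell F B D Sh H T m x, cover F B D Sh E H T m L hT hE x, ?_⟩
    rintro (i | s | ⟨s, u⟩ | ⟨s, u, τ⟩)
    · have h5 := (hPC2 X Λ F q q' B D Sh C β M b L T hS x H
        (cell F B D Sh H T m x (Sum.inl i)) (fun y hy => hy)).1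
      show cap F q' H _ ≤ 1 / 4 * Real.exp (θ * (H : ℕ))
      refine h5.trans ?_
      have h6 : C * Real.exp (β * H) = C * Real.exp ((β - θ) * H) * Real.exp (θ * H) := by
        rw [mul_assoc, ← Real.exp_add]
        congr 2
        ring
      rw [h6]
      exact mul_le_mul_of_nonneg_right h1 (Real.exp_pos _).le
    · have h5 := (hPC2 X Λ F q q' B D Sh C β M b L T hS x s
        (cell F B D Sh H T m x (Sum.inr (Sum.inl s))) (fun y hy => hy.1)).2.1 (fun y hy => hy.2)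
      show cap F q' (s + L) _ ≤ k₂ * Real.exp (θ * ((s + L : ℕ) : ℝ))
      refine h5.trans ?_
      have h6 : Real.exp (β * (s : ℕ)) ≤ Real.exp (θ * ((s + L : ℕ) : ℝ)) := by
        refine (hexp s).trans (Real.exp_le_exp.2 ?_)
        apply mul_le_mul_of_nonneg_left _ hθ
        push_cast
        have : (0 : ℝ) ≤ L := Nat.cast_nonneg L
        linarith
      calc C * Real.exp (β * (s : ℕ)) * ((2 * a) ^ L * b)
          ≤ C * Real.exp (θ * ((s + L : ℕ) : ℝ)) * ((2 * a) ^ L * b) := by gcongr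
        _ = C * 1 * ((2 * a) ^ L * b) * Real.exp (θ * ((s + L : ℕ) : ℝ)) := by ring
        _ ≤ C * a ^ (2 * T) * ((2 * a) ^ L * b) * Real.exp (θ * ((s + L : ℕ) : ℝ)) := by gcongr
    · have h5 := (hPC2 X Λ F q q' B D Sh C β M b L T hS x s
        (cell F B D Sh H T m x (Sum.inr (Sum.inr (Sum.inl (s, u)))))
          (fun y hy => hy.1)).2.2.1 u m (fun y hy => hy.2.1) (fun y hy => hy.2.2)
      show cap F q' (s + (u + m * T)) _ ≤ k₁ * Real.exp (θ * ((s + (u + m * T) : ℕ) : ℝ))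
      refine h5.trans ?_
      have h6 : a ^ (u : ℕ) ≤ a ^ T := pow_le_pow_right₀ ha1 u.2.le
      have h7 : Real.exp (θ * ((s + (u + m * T) : ℕ) : ℝ)) =
          Real.exp (θ * (s : ℕ)) * Real.exp (θ * (u : ℕ)) * Real.exp (θ * T) ^ m := by
        rw [← Real.exp_nat_mul, ← Real.exp_add, ← Real.exp_add]
        congr 1
        push_cast
        ring
      have h8 : (M * Real.exp (-(θ * T))) ^ m * Real.exp (θ * T) ^ m = M ^ m := by
        rw [← mul_pow, mul_assoc, ← Real.exp_add, neg_add_cancel, Real.exp_zero, mul_one]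
      have h9 : 1 ≤ Real.exp (θ * (u : ℕ)) := by
        apply Real.one_le_exp
        positivity
      have h10 := hexp s
      calc C * Real.exp (β * (s : ℕ)) * (a ^ (u : ℕ) * M ^ m)
          ≤ C * Real.exp (θ * (s : ℕ)) * (a ^ T * M ^ m) := by gcongr
        _ = C * Real.exp (θ * (s : ℕ)) * (a ^ T * M ^ m) * 1 := by ring
        _ ≤ C * Real.exp (θ * (s : ℕ)) * (a ^ T * M ^ m) * Real.exp (θ * (u : ℕ)) := by gcongr
        _ = k₁ * Real.exp (θ * ((s + (u + m * T) : ℕ) : ℝ)) := by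
          rw [h7, hk₁, ← h8]
          ring
    · have h5 := (hPC2 X Λ F q q' B D Sh C β M b L T hS x s
        (cell F B D Sh H T m x (Sum.inr (Sum.inr (Sum.inr (s, u, τ)))))
          (fun y hy => hy.1)).2.2.2 u τ u.2 (fun y hy => hy.2.1) (fun y hy => hy.2.2.1)
          (fun y hy => hy.2.2.2)
      show cap F q' (s + (τ + L)) _ ≤ k₂ * Real.exp (θ * ((s + (τ + L) : ℕ) : ℝ))
      refine h5.trans ?_
      have h6 : M ^ (((τ : ℕ) - (u : ℕ)) / T) ≤ Real.exp (θ * (τ : ℕ)) := by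
        calc M ^ (((τ : ℕ) - (u : ℕ)) / T) ≤ Real.exp (θ * T) ^ (((τ : ℕ) - (u : ℕ)) / T) := by
              gcongr
          _ = Real.exp (((((τ : ℕ) - (u : ℕ)) / T : ℕ) : ℝ) * (θ * T)) := by
              rw [← Real.exp_nat_mul]
          _ ≤ Real.exp (θ * (τ : ℕ)) := by
              apply Real.exp_le_exp.2
              have h7 : (((τ : ℕ) - (u : ℕ)) / T) * T ≤ (τ : ℕ) :=
                (Nat.div_mul_le_self _ _).trans (Nat.sub_le _ _)
              have h8 : (((((τ : ℕ) - (u : ℕ)) / T : ℕ) : ℝ)) * (T : ℝ) ≤ ((τ : ℕ) : ℝ) := by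
                exact_mod_cast h7
              calc (((((τ : ℕ) - (u : ℕ)) / T : ℕ) : ℝ)) * (θ * T)
                  = θ * ((((((τ : ℕ) - (u : ℕ)) / T : ℕ) : ℝ)) * T) := by ring
                _ ≤ θ * ((τ : ℕ) : ℝ) := mul_le_mul_of_nonneg_left h8 hθ
      have h7 : Real.exp (θ * ((s + (τ + L) : ℕ) : ℝ)) =
          Real.exp (θ * (s : ℕ)) * Real.exp (θ * (τ : ℕ)) * Real.exp (θ * L) := by
        rw [← Real.exp_add, ← Real.exp_add]
        congr 1
        push_cast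
        ring
      have h9 : 1 ≤ Real.exp (θ * L) := by
        apply Real.one_le_exp
        positivity
      have h10 := hexp s
      calc C * Real.exp (β * (s : ℕ)) *
            (a ^ (2 * T) * M ^ (((τ : ℕ) - (u : ℕ)) / T) * ((2 * a) ^ L * b))
          ≤ C * Real.exp (θ * (s : ℕ)) *
            (a ^ (2 * T) * Real.exp (θ * (τ : ℕ)) * ((2 * a) ^ L * b)) := by gcongr
        _ = C * Real.exp (θ * (s : ℕ)) *
            (a ^ (2 * T) * Real.exp (θ * (τ : ℕ)) * ((2 * a) ^ L * b)) * 1 := by ring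
        _ ≤ C * Real.exp (θ * (s : ℕ)) *
            (a ^ (2 * T) * Real.exp (θ * (τ : ℕ)) * ((2 * a) ^ L * b)) * Real.exp (θ * L) := by
          gcongr
        _ = k₂ * Real.exp (θ * ((s + (τ + L) : ℕ) : ℝ)) := by
          rw [h7, hk₂]
          ring

/-- STAR. -/
theorem star : REN.{u} → PC2.{u} → STAR.{u} := star_ok

end Pool.Agent.Helper94.WeissJ
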